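import Mathlib

/-!
Matrices whose entry in row `x` and column `y` (`x, y` strings of binary digits) depends only on the
digitwise integer difference `x - y`: low rank plus an error supported on few pairs.
-/

set_option autoImplicit false

open Finset

namespace Pool.Agent.H525R3.Toep

/-- state of a pair of bits: `0` equal, `1` for `(1,0)`, `2` for `(0,1)` -/
def st (x y : Fin 2) : Fin 3 := if x = y then 0 else if x = 1 then 1 else 2

section
variable {F : Type*} [CommRing F]

/-- the basis functions `1`, `x - y`, `xy - y` -/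
def nb (b : Fin 3) (x y : Fin 2) : F :=
  if b = 0 then 1 else if b = 1 then (x.val : F) - (y.val : F)
  else (x.val : F) * (y.val : F) - (y.val : F)

/-- coefficients of the indicator of a state -/
def cf (s b : Fin 3) : F :=
  if s = 0 then (if b = 0 then 1 else if b = 1 then -1 else 2)
  else if s = 1 then (if b = 0 then 0 else if b = 1 then 1 else -1)
  else (if b = 0 then 0 else if b = 1 then 0 else -1)

theorem delta (s : Fin 3) (x y : Fin 2) :
    ∑ b : Fin 3, (cf s b : F) * nb b x y = if st x y = s then 1 else 0 := by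
  rw [Fin.sum_univ_three]
  fin_cases s <;> fin_cases x <;> fin_cases y <;> simp [cf, nb, st] <;> norm_num

/-- coefficients of `G` in the basis -/
def pc {n : ℕ} (G : (Fin n → Fin 3) → F) (b : Fin n → Fin 3) : F :=
  ∑ s, G s * ∏ i, cf (s i) (b i)

theorem expand {n : ℕ} (G : (Fin n → Fin 3) → F) (x y : Fin n → Fin 2) :
    G (fun i => st (x i) (y i)) = ∑ b, pc G b * ∏ i, nb (b i) (x i) (y i) := by
  classical
  have h1 : ∑ b, pc G b * ∏ i, nb (b i) (x i) (y i)
      = ∑ s, G s * ∏ i, (if st (x i) (y i) = s i then (1 : F) else 0) := by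
    unfold pc
    simp_rw [Finset.sum_mul]
    rw [Finset.sum_comm]
    apply Finset.sum_congr rfl
    intro s _
    simp_rw [mul_assoc]
    rw [← Finset.mul_sum]
    congr 1
    simp_rw [← Finset.prod_mul_distrib, ← delta]
    rw [Finset.prod_univ_sum]
    simp only [Fintype.piFinset_univ]
  rw [h1, Finset.sum_eq_single (fun i => st (x i) (y i))]
  · simp
  · intro s _ hs
    have : ∃ i, st (x i) (y i) ≠ s i := by
      by_contra hcon
      push Not at hcon
      exact hs (funext fun i => (hcon i).symm)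
    obtain ⟨i, hi⟩ := this
    rw [Finset.prod_eq_zero (Finset.mem_univ i) (by simp [hi]), mul_zero]
  · intro h; exact absurd (Finset.mem_univ _) h

/-- monomials -/
def mon {n : ℕ} (S : Finset (Fin n)) (x : Fin n → Fin 2) : F := ∏ i ∈ S, ((x i).val : F)

/-- the signs in the expansion of the basis functions -/
def kp (b : Fin 3) (e : Fin 2) : F := if e = 0 then 1 else if b = 0 then 0 else -1

def inS (b : Fin 3) (e : Fin 2) : Prop := b ≠ 0 ∧ e = 0
def inT (b : Fin 3) (e : Fin 2) : Prop := (b = 1 ∧ e = 1) ∨ b = 2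

instance (b : Fin 3) (e : Fin 2) : Decidable (inS b e) := by unfold inS; infer_instance
instance (b : Fin 3) (e : Fin 2) : Decidable (inT b e) := by unfold inT; infer_instance

theorem nb_expand (b : Fin 3) (x y : Fin 2) :
    (nb b x y : F) = ∑ e : Fin 2, kp b e * ((if inS b e then (x.val : F) else 1) *
      (if inT b e then (y.val : F) else 1)) := by
  rw [Fin.sum_univ_two]
  fin_cases b <;> simp [nb, kp, inS, inT] <;> ring

def Sof {n : ℕ} (b : Fin n → Fin 3) (e : Fin n → Fin 2) : Finset (Fin n) :=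
  univ.filter (fun i => inS (b i) (e i))
def Tof {n : ℕ} (b : Fin n → Fin 3) (e : Fin n → Fin 2) : Finset (Fin n) :=
  univ.filter (fun i => inT (b i) (e i))

theorem card_Sof_Tof {n : ℕ} (b : Fin n → Fin 3) (e : Fin n → Fin 2) :
    (Sof b e).card + (Tof b e).card ≤
      (univ.filter (fun i => b i ≠ 0)).card + (univ.filter (fun i => b i = 2)).card := by
  unfold Sof Tof
  simp only [card_filter]
  rw [← sum_add_distrib, ← sum_add_distrib]
  apply sum_le_sum
  intro i _
  generalize b i = c
  generalize e i = d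
  revert c d
  decide

theorem prod_nb {n : ℕ} (b : Fin n → Fin 3) (x y : Fin n → Fin 2) :
    ∏ i, (nb (b i) (x i) (y i) : F) =
      ∑ e : Fin n → Fin 2, (∏ i, kp (b i) (e i)) * (mon (Sof b e) x * mon (Tof b e) y) := by
  classical
  simp_rw [nb_expand]
  rw [Finset.prod_univ_sum]
  simp only [Fintype.piFinset_univ]
  apply sum_congr rfl
  intro e _
  rw [prod_mul_distrib, prod_mul_distrib]
  unfold mon Sof Tof
  rw [prod_filter, prod_filter]

/-- number of positions where the strings differ -/
def df {n : ℕ} (s : Fin n → Fin 3) : ℕ := (univ.filter (fun i => s i ≠ 0)).card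
/-- number of positions with state `2` -/
def tw {n : ℕ} (s : Fin n → Fin 3) : ℕ := (univ.filter (fun i => s i = 2)).card

theorem nb_ne_zero {b : Fin 3} {x y : Fin 2} (h : (nb b x y : F) ≠ 0) :
    (b ≠ 0 → st x y ≠ 0) ∧ (b = 2 → st x y = 2) := by
  revert h
  fin_cases b <;> fin_cases x <;> fin_cases y <;> simp [nb, st]

theorem prod_nb_ne_zero {n : ℕ} {b : Fin n → Fin 3} {x y : Fin n → Fin 2}
    (h : ∏ i, (nb (b i) (x i) (y i) : F) ≠ 0) :
    df b ≤ df (fun i => st (x i) (y i)) ∧ tw b ≤ tw (fun i => st (x i) (y i)) := by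
  have hi : ∀ i, (nb (b i) (x i) (y i) : F) ≠ 0 := by
    intro i hi
    exact h (Finset.prod_eq_zero (Finset.mem_univ i) hi)
  constructor
  · apply card_le_card
    intro i
    simp only [mem_filter, mem_univ, true_and]
    exact (nb_ne_zero (hi i)).1
  · apply card_le_card
    intro i
    simp only [mem_filter, mem_univ, true_and]
    exact (nb_ne_zero (hi i)).2

/-- the small sets -/
def small (n s0 : ℕ) : Finset (Finset (Fin n)) := univ.filter (fun S => S.card ≤ s0)

theorem decomp {n : ℕ} (m0 r0 s0 : ℕ) (hs : m0 + r0 ≤ 2 * s0 + 1) (G : (Fin n → Fin 3) → F) :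
    ∃ U V : Finset (Fin n) → (Fin n → Fin 2) → F, ∀ x y : Fin n → Fin 2,
      df (fun i => st (x i) (y i)) ≤ m0 → tw (fun i => st (x i) (y i)) ≤ r0 →
      G (fun i => st (x i) (y i)) =
        ∑ S ∈ small n s0, mon S x * U S y + ∑ T ∈ small n s0, V T x * mon T y := by
  classical
  -- the index set
  let A : Finset (Fin n → Fin 3) := univ.filter (fun b => df b ≤ m0 ∧ tw b ≤ r0)
  let I : Finset ((Fin n → Fin 3) × (Fin n → Fin 2)) := A ×ˢ univ
  let I1 := I.filter (fun p => (Sof p.1 p.2).card ≤ s0)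
  let I2 := I.filter (fun p => ¬ (Sof p.1 p.2).card ≤ s0)
  let w : (Fin n → Fin 3) × (Fin n → Fin 2) → F := fun p => pc G p.1 * ∏ i, kp (p.1 i) (p.2 i)
  refine ⟨fun S y => ∑ p ∈ I1.filter (fun p => Sof p.1 p.2 = S), w p * mon (Tof p.1 p.2) y,
    fun T x => ∑ p ∈ I2.filter (fun p => Tof p.1 p.2 = T), w p * mon (Sof p.1 p.2) x, ?_⟩
  intro x y hx hy
  rw [expand G x y]
  have h1 : ∑ b, pc G b * ∏ i, nb (b i) (x i) (y i) =
      ∑ b ∈ A, pc G b * ∏ i, nb (b i) (x i) (y i) := by
    symm
    apply sum_subset (subset_univ _)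
    intro b _ hb
    by_contra hne
    have h2 : ∏ i, (nb (b i) (x i) (y i) : F) ≠ 0 := fun h => hne (by rw [h, mul_zero])
    obtain ⟨h3, h4⟩ := prod_nb_ne_zero h2
    exact hb (mem_filter.2 ⟨mem_univ _, h3.trans hx, h4.trans hy⟩)
  rw [h1]
  have h2 : ∑ b ∈ A, pc G b * ∏ i, nb (b i) (x i) (y i) =
      ∑ p ∈ I, w p * (mon (Sof p.1 p.2) x * mon (Tof p.1 p.2) y) := by
    rw [sum_product]
    apply sum_congr rfl
    intro b _
    rw [prod_nb, mul_sum]
    apply sum_congr rfl
    intro e _
    simp only [w]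
    ring
  rw [h2, ← sum_filter_add_sum_filter_not I (fun p => (Sof p.1 p.2).card ≤ s0)]
  congr 1
  · have hmaps : ∀ p ∈ I1, Sof p.1 p.2 ∈ small n s0 := by
      intro p hp
      exact mem_filter.2 ⟨mem_univ _, (mem_filter.1 hp).2⟩
    rw [← sum_fiberwise_of_maps_to hmaps]
    apply sum_congr rfl
    intro S _
    rw [mul_sum]
    apply sum_congr rfl
    intro p hp
    rw [(mem_filter.1 hp).2]
    ring
  · have hmaps : ∀ p ∈ I2, Tof p.1 p.2 ∈ small n s0 := by
      intro p hp
      obtain ⟨hp1, hp2⟩ := mem_filter.1 hp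
      have hA := (mem_filter.1 (mem_product.1 hp1).1).2
      have hc := card_Sof_Tof p.1 p.2
      refine mem_filter.2 ⟨mem_univ _, ?_⟩
      simp only [df, tw] at hA
      omega
    rw [← sum_fiberwise_of_maps_to hmaps]
    apply sum_congr rfl
    intro T _
    rw [sum_mul]
    apply sum_congr rfl
    intro p hp
    rw [(mem_filter.1 hp).2]
    ring

end

end Pool.Agent.H525R3.Toep
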