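import Mathlib
import Pool.Agent.H525R3.Toep.Core

/-!
Counting small sets and bad pairs (exponential moments).
-/

set_option autoImplicit false

open Finset

namespace Pool.Agent.H525R3.Toep

theorem num1 : ((16 / 9 : ℝ) ^ 208) * 5 ≤ 2 ^ 208 * (7 / 9) ^ 91 := by norm_num
theorem num2 : ((32 / 7 : ℝ) ^ 208) * 5 ≤ 4 ^ 208 * (9 / 7) ^ 117 := by norm_num
theorem num3 : ((48 / 11 : ℝ) ^ 208) * 5 ≤ 4 ^ 208 * (15 / 11) ^ 65 := by norm_num

theorem small_card (k : ℕ) :
    ((small (208 * k) (91 * k)).card : ℝ) * 5 ^ k ≤ 2 ^ (208 * k) := by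
  have h1 : ((small (208 * k) (91 * k)).card : ℝ) * (7 / 9) ^ (91 * k) ≤ (16 / 9) ^ (208 * k) := by
    calc ((small (208 * k) (91 * k)).card : ℝ) * (7 / 9) ^ (91 * k)
        = ∑ _S ∈ small (208 * k) (91 * k), ((7 / 9 : ℝ)) ^ (91 * k) := by
          rw [sum_const, nsmul_eq_mul]
      _ ≤ ∑ S ∈ small (208 * k) (91 * k), ((7 / 9 : ℝ)) ^ S.card := by
          apply sum_le_sum
          intro S hS
          exact pow_le_pow_of_le_one (by norm_num) (by norm_num) (mem_filter.1 hS).2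
      _ ≤ ∑ S : Finset (Fin (208 * k)), ((7 / 9 : ℝ)) ^ S.card := by
          apply sum_le_sum_of_subset_of_nonneg (subset_univ _)
          intro S _ _
          positivity
      _ = (16 / 9) ^ (208 * k) := by
          have := Fintype.sum_pow_mul_eq_add_pow (Fin (208 * k)) (7 / 9 : ℝ) 1
          simp only [one_pow, mul_one, Fintype.card_fin] at this
          rw [this]
          norm_num
  have h2 : ((16 / 9 : ℝ)) ^ (208 * k) * 5 ^ k ≤ 2 ^ (208 * k) * (7 / 9) ^ (91 * k) := by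
    rw [pow_mul, pow_mul, pow_mul, ← mul_pow, ← mul_pow]
    exact pow_le_pow_left₀ (by positivity) num1 k
  have h3 : (0 : ℝ) < (7 / 9) ^ (91 * k) := by positivity
  have h4 : ((small (208 * k) (91 * k)).card : ℝ) * 5 ^ k * (7 / 9) ^ (91 * k) ≤
      2 ^ (208 * k) * (7 / 9) ^ (91 * k) := by
    calc ((small (208 * k) (91 * k)).card : ℝ) * 5 ^ k * (7 / 9) ^ (91 * k)
        = (((small (208 * k) (91 * k)).card : ℝ) * (7 / 9) ^ (91 * k)) * 5 ^ k := by ring
      _ ≤ (16 / 9) ^ (208 * k) * 5 ^ k := by gcongr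
      _ ≤ _ := h2
  exact le_of_mul_le_mul_right h4 h3

theorem pair_sum (n : ℕ) (w : Fin 3 → ℝ) :
    ∑ p : (Fin n → Fin 2) × (Fin n → Fin 2), ∏ i, w (st (p.1 i) (p.2 i)) =
      (2 * w 0 + w 1 + w 2) ^ n := by
  classical
  rw [Fintype.sum_prod_type]
  have h1 : ∀ x : Fin n → Fin 2, ∑ y : Fin n → Fin 2, ∏ i, w (st (x i) (y i)) =
      ∏ i, ∑ b : Fin 2, w (st (x i) b) := by
    intro x
    rw [Finset.prod_univ_sum]
    simp only [Fintype.piFinset_univ]
  simp_rw [h1]
  have h2 : ∑ x : Fin n → Fin 2, ∏ i, ∑ b : Fin 2, w (st (x i) b) =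
      ∏ _i : Fin n, ∑ a : Fin 2, ∑ b : Fin 2, w (st a b) := by
    rw [Finset.prod_univ_sum]
    simp only [Fintype.piFinset_univ]
  rw [h2, prod_const, card_univ, Fintype.card_fin]
  congr 1
  rw [Fin.sum_univ_two, Fin.sum_univ_two, Fin.sum_univ_two]
  simp only [st]
  simp
  ring

/-- the bad pairs -/
def bad (n m0 r0 : ℕ) : Finset ((Fin n → Fin 2) × (Fin n → Fin 2)) :=
  univ.filter (fun p => ¬ (df (fun i => st (p.1 i) (p.2 i)) ≤ m0 ∧
    tw (fun i => st (p.1 i) (p.2 i)) ≤ r0))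

theorem prod_ite_card {n : ℕ} (P : Fin n → Prop) [DecidablePred P] (l : ℝ) :
    ∏ i, (if P i then l else 1) = l ^ (univ.filter P).card := by
  rw [prod_ite, prod_const, prod_const_one, mul_one]

theorem bad1_card (k : ℕ) :
    (((univ : Finset ((Fin (208 * k) → Fin 2) × (Fin (208 * k) → Fin 2))).filter
      (fun p => 117 * k < df (fun i => st (p.1 i) (p.2 i)))).card : ℝ) * 5 ^ k ≤
      4 ^ (208 * k) := by
  set B := (univ : Finset ((Fin (208 * k) → Fin 2) × (Fin (208 * k) → Fin 2))).filter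
      (fun p => 117 * k < df (fun i => st (p.1 i) (p.2 i))) with hB
  have h1 : (B.card : ℝ) * (9 / 7) ^ (117 * k) ≤ (32 / 7) ^ (208 * k) := by
    calc (B.card : ℝ) * (9 / 7) ^ (117 * k)
        = ∑ _p ∈ B, ((9 / 7 : ℝ)) ^ (117 * k) := by rw [sum_const, nsmul_eq_mul]
      _ ≤ ∑ p ∈ B, ∏ i, (if st (p.1 i) (p.2 i) ≠ 0 then (9 / 7 : ℝ) else 1) := by
          apply sum_le_sum
          intro p hp
          rw [prod_ite_card]
          exact pow_le_pow_right₀ (by norm_num) (mem_filter.1 hp).2.le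
      _ ≤ ∑ p : (Fin (208 * k) → Fin 2) × (Fin (208 * k) → Fin 2),
            ∏ i, (if st (p.1 i) (p.2 i) ≠ 0 then (9 / 7 : ℝ) else 1) := by
          apply sum_le_sum_of_subset_of_nonneg (subset_univ _)
          intro p _ _
          apply prod_nonneg
          intro i _
          split_ifs <;> norm_num
      _ = (32 / 7) ^ (208 * k) := by
          have := pair_sum (208 * k) (fun s => if s ≠ 0 then (9 / 7 : ℝ) else 1)
          rw [this]
          have e0 : ¬ ((0 : Fin 3) ≠ 0) := by decide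
          have e1 : (1 : Fin 3) ≠ 0 := by decide
          have e2 : (2 : Fin 3) ≠ 0 := by decide
          rw [if_neg e0, if_pos e1, if_pos e2]
          norm_num
  have h2 : ((32 / 7 : ℝ)) ^ (208 * k) * 5 ^ k ≤ 4 ^ (208 * k) * (9 / 7) ^ (117 * k) := by
    rw [pow_mul, pow_mul, pow_mul, ← mul_pow, ← mul_pow]
    exact pow_le_pow_left₀ (by positivity) num2 k
  have h3 : (0 : ℝ) < (9 / 7) ^ (117 * k) := by positivity
  have h4 : (B.card : ℝ) * 5 ^ k * (9 / 7) ^ (117 * k) ≤ 4 ^ (208 * k) * (9 / 7) ^ (117 * k) := by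
    calc (B.card : ℝ) * 5 ^ k * (9 / 7) ^ (117 * k)
        = ((B.card : ℝ) * (9 / 7) ^ (117 * k)) * 5 ^ k := by ring
      _ ≤ (32 / 7) ^ (208 * k) * 5 ^ k := by gcongr
      _ ≤ _ := h2
  exact le_of_mul_le_mul_right h4 h3

theorem bad2_card (k : ℕ) :
    (((univ : Finset ((Fin (208 * k) → Fin 2) × (Fin (208 * k) → Fin 2))).filter
      (fun p => 65 * k < tw (fun i => st (p.1 i) (p.2 i)))).card : ℝ) * 5 ^ k ≤
      4 ^ (208 * k) := by
  set B := (univ : Finset ((Fin (208 * k) → Fin 2) × (Fin (208 * k) → Fin 2))).filter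
      (fun p => 65 * k < tw (fun i => st (p.1 i) (p.2 i))) with hB
  have h1 : (B.card : ℝ) * (15 / 11) ^ (65 * k) ≤ (48 / 11) ^ (208 * k) := by
    calc (B.card : ℝ) * (15 / 11) ^ (65 * k)
        = ∑ _p ∈ B, ((15 / 11 : ℝ)) ^ (65 * k) := by rw [sum_const, nsmul_eq_mul]
      _ ≤ ∑ p ∈ B, ∏ i, (if st (p.1 i) (p.2 i) = 2 then (15 / 11 : ℝ) else 1) := by
          apply sum_le_sum
          intro p hp
          rw [prod_ite_card]
          exact pow_le_pow_right₀ (by norm_num) (mem_filter.1 hp).2.le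
      _ ≤ ∑ p : (Fin (208 * k) → Fin 2) × (Fin (208 * k) → Fin 2),
            ∏ i, (if st (p.1 i) (p.2 i) = 2 then (15 / 11 : ℝ) else 1) := by
          apply sum_le_sum_of_subset_of_nonneg (subset_univ _)
          intro p _ _
          apply prod_nonneg
          intro i _
          split_ifs <;> norm_num
      _ = (48 / 11) ^ (208 * k) := by
          have := pair_sum (208 * k) (fun s => if s = 2 then (15 / 11 : ℝ) else 1)
          rw [this]
          have e0 : ¬ ((0 : Fin 3) = 2) := by decide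
          have e1 : ¬ ((1 : Fin 3) = 2) := by decide
          have e2 : (2 : Fin 3) = 2 := rfl
          rw [if_neg e0, if_neg e1, if_pos e2]
          norm_num
  have h2 : ((48 / 11 : ℝ)) ^ (208 * k) * 5 ^ k ≤ 4 ^ (208 * k) * (15 / 11) ^ (65 * k) := by
    rw [pow_mul, pow_mul, pow_mul, ← mul_pow, ← mul_pow]
    exact pow_le_pow_left₀ (by positivity) num3 k
  have h3 : (0 : ℝ) < (15 / 11) ^ (65 * k) := by positivity
  have h4 : (B.card : ℝ) * 5 ^ k * (15 / 11) ^ (65 * k) ≤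
      4 ^ (208 * k) * (15 / 11) ^ (65 * k) := by
    calc (B.card : ℝ) * 5 ^ k * (15 / 11) ^ (65 * k)
        = ((B.card : ℝ) * (15 / 11) ^ (65 * k)) * 5 ^ k := by ring
      _ ≤ (48 / 11) ^ (208 * k) * 5 ^ k := by gcongr
      _ ≤ _ := h2
  exact le_of_mul_le_mul_right h4 h3

theorem bad_card (k : ℕ) :
    ((bad (208 * k) (117 * k) (65 * k)).card : ℝ) * 5 ^ k ≤ 2 * 4 ^ (208 * k) := by
  have hsub : bad (208 * k) (117 * k) (65 * k) ⊆
      ((univ : Finset ((Fin (208 * k) → Fin 2) × (Fin (208 * k) → Fin 2))).filter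
      (fun p => 117 * k < df (fun i => st (p.1 i) (p.2 i)))) ∪
      ((univ : Finset ((Fin (208 * k) → Fin 2) × (Fin (208 * k) → Fin 2))).filter
      (fun p => 65 * k < tw (fun i => st (p.1 i) (p.2 i)))) := by
    intro p hp
    have := (mem_filter.1 hp).2
    rw [mem_union, mem_filter, mem_filter]
    by_cases h : df (fun i => st (p.1 i) (p.2 i)) ≤ 117 * k
    · right
      refine ⟨mem_univ _, ?_⟩
      by_contra h2
      exact this ⟨h, not_lt.1 h2⟩
    · left
      exact ⟨mem_univ _, not_le.1 h⟩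
  have h1 := card_le_card hsub
  have h2 := h1.trans (card_union_le _ _)
  have h5 : (0 : ℝ) ≤ 5 ^ k := by positivity
  have h3 := add_le_add (bad1_card k) (bad2_card k)
  rw [← add_mul] at h3
  refine (mul_le_mul_of_nonneg_right ?_ h5).trans (h3.trans (le_of_eq (by ring)))
  exact_mod_cast h2

end Pool.Agent.H525R3.Toep
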