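import Mathlib

/-!
Real roots of truncated partial theta polynomials, and sums of products of two sparse polynomials.
-/

set_option autoImplicit false

open Finset Polynomial

namespace Pool.Agent.H525R3.Toep

/-- A polynomial whose values at `N` increasing points alternate in sign has `N - 1` real roots. -/
theorem card_roots_of_alternating (p : ℝ[X]) (N : ℕ) (z : ℕ → ℝ) (hz : StrictMono z)
    (h : ∀ m < N, 0 < (-1 : ℝ) ^ m * p.eval (z m)) : N - 1 ≤ p.roots.toFinset.card := by
  classical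
  rcases Nat.lt_or_ge N 2 with hN | hN
  · have : N - 1 = 0 := by omega
    rw [this]; exact Nat.zero_le _
  have hp : p ≠ 0 := by
    rintro rfl
    have := h 0 (by omega)
    simp at this
  have hroot : ∀ m : Fin (N - 1), ∃ r, z m < r ∧ r < z (m + 1) ∧ p.eval r = 0 := by
    intro m
    have h1 := h m (by omega)
    have h2 := h (m + 1) (by omega)
    have hlt : z m < z (m + 1) := hz (Nat.lt_succ_self _)
    have hc : ContinuousOn (fun x => (-1 : ℝ) ^ (m : ℕ) * p.eval x) (Set.Icc (z m) (z (m + 1))) :=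
      (continuous_const.mul p.continuous).continuousOn
    rw [pow_succ] at h2
    have h3 : (-1 : ℝ) ^ (m : ℕ) * p.eval (z (m + 1)) < 0 := by nlinarith
    have := intermediate_value_Ioo' hlt.le hc
    obtain ⟨r, hr, hr0⟩ := this ⟨h3, h1⟩
    refine ⟨r, hr.1, hr.2, ?_⟩
    rcases mul_eq_zero.1 hr0 with h4 | h4
    · exact absurd h4 (pow_ne_zero _ (by norm_num))
    · exact h4
  choose r hr1 hr2 hr3 using hroot
  have hinj : Function.Injective r := by
    intro i j hij
    rcases lt_trichotomy i j with hlt | heq | hgt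
    · exfalso
      have h1 : z (i + 1) ≤ z j := hz.monotone (by exact_mod_cast hlt)
      have := hr2 i
      have := hr1 j
      rw [hij] at *
      linarith
    · exact heq
    · exfalso
      have h1 : z (j + 1) ≤ z i := hz.monotone (by exact_mod_cast hgt)
      have := hr2 j
      have := hr1 i
      rw [hij] at *
      linarith
  calc N - 1 = Fintype.card (Fin (N - 1)) := (Fintype.card_fin _).symm
    _ = (univ.image r).card := by rw [card_image_of_injective _ hinj, card_univ]
    _ ≤ p.roots.toFinset.card := by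
        apply card_le_card
        intro x hx
        obtain ⟨i, _, rfl⟩ := mem_image.1 hx
        rw [Multiset.mem_toFinset, mem_roots hp]
        exact hr3 i

/-- the truncated partial theta polynomial -/
noncomputable def theta (N : ℕ) : ℝ[X] :=
  ∑ r ∈ range N, monomial r ((-1 : ℝ) ^ r * (1 / 4) ^ (r ^ 2))

theorem quarter_sum (N : ℕ) : ∑ d ∈ range N, (1 / 4 : ℝ) ^ ((d + 1) ^ 2) < 1 / 3 + 1 / 100 := by
  have h1 : ∑ d ∈ range N, (1 / 4 : ℝ) ^ ((d + 1) ^ 2) ≤ ∑ d ∈ range N, (1 / 4 : ℝ) ^ (d + 1) := by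
    apply sum_le_sum
    intro d _
    apply pow_le_pow_of_le_one (by norm_num) (by norm_num)
    nlinarith
  have h2 : ∑ d ∈ range N, (1 / 4 : ℝ) ^ (d + 1) ≤ 1 / 3 := by
    have : ∀ N : ℕ, ∑ d ∈ range N, (1 / 4 : ℝ) ^ (d + 1) = 1 / 3 - 1 / 3 * (1 / 4) ^ N := by
      intro N
      induction N with
      | zero => simp
      | succ n ih => rw [sum_range_succ, ih, pow_succ]; ring
    rw [this]
    have : (0 : ℝ) < (1 / 4) ^ N := by positivity
    linarith
  linarith

theorem theta_sign (N m : ℕ) (hm : m < N) : 0 < (-1 : ℝ) ^ m * (theta N).eval (16 ^ m) := by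
  have hev : (theta N).eval (16 ^ m) =
      ∑ r ∈ range N, (-1 : ℝ) ^ r * (1 / 4) ^ (r ^ 2) * (16 ^ m) ^ r := by
    unfold theta
    rw [eval_finset_sum]
    simp only [eval_monomial]
  rw [hev, mul_sum, ← Finset.add_sum_erase _ _ (mem_range.2 hm)]
  -- main term
  have hpow : ∀ r : ℕ, (1 / 4 : ℝ) ^ (r ^ 2) * (16 ^ m) ^ r * (1 / 4) ^ (m ^ 2) =
      (1 / 4) ^ (((r : ℤ) - m).natAbs ^ 2) := by
    intro r
    have h4 : (1 / 4 : ℝ) ≠ 0 := by norm_num
    have h16 : (16 : ℝ) = (1 / 4 : ℝ) ^ (-2 : ℤ) := by norm_num [zpow_neg]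
    rw [h16, ← zpow_natCast, ← zpow_natCast, ← zpow_natCast, ← zpow_natCast, ← zpow_natCast,
      ← zpow_mul, ← zpow_mul, ← zpow_add₀ h4, ← zpow_add₀ h4]
    congr 1
    push_cast
    rw [sq_abs]
    ring
  have hscale : (0 : ℝ) < (1 / 4) ^ (m ^ 2) := by positivity
  -- multiply through by the scale
  rw [← mul_pos_iff_of_pos_right hscale, add_mul]
  have hmain : (-1 : ℝ) ^ m * ((-1) ^ m * (1 / 4) ^ m ^ 2 * (16 ^ m) ^ m) * (1 / 4) ^ m ^ 2 = 1 := by
    have := hpow m
    rw [sub_self, Int.natAbs_zero] at this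
    have h1 : (-1 : ℝ) ^ m * (-1) ^ m = 1 := by rw [← mul_pow]; norm_num
    calc (-1 : ℝ) ^ m * ((-1) ^ m * (1 / 4) ^ m ^ 2 * (16 ^ m) ^ m) * (1 / 4) ^ m ^ 2
        = ((-1 : ℝ) ^ m * (-1) ^ m) * ((1 / 4) ^ m ^ 2 * (16 ^ m) ^ m * (1 / 4) ^ m ^ 2) := by ring
      _ = 1 := by rw [h1, this]; norm_num
  rw [hmain, sum_mul]
  have hrest : |∑ r ∈ (range N).erase m,
      (-1 : ℝ) ^ m * ((-1) ^ r * (1 / 4) ^ r ^ 2 * (16 ^ m) ^ r) * (1 / 4) ^ m ^ 2| < 1 := by
    calc |∑ r ∈ (range N).erase m,
          (-1 : ℝ) ^ m * ((-1) ^ r * (1 / 4) ^ r ^ 2 * (16 ^ m) ^ r) * (1 / 4) ^ m ^ 2|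
        ≤ ∑ r ∈ (range N).erase m,
          |(-1 : ℝ) ^ m * ((-1) ^ r * (1 / 4) ^ r ^ 2 * (16 ^ m) ^ r) * (1 / 4) ^ m ^ 2| :=
          abs_sum_le_sum_abs _ _
      _ = ∑ r ∈ (range N).erase m, (1 / 4 : ℝ) ^ (((r : ℤ) - m).natAbs ^ 2) := by
          apply sum_congr rfl
          intro r _
          rw [← hpow r]
          rw [show (-1 : ℝ) ^ m * ((-1) ^ r * (1 / 4) ^ r ^ 2 * (16 ^ m) ^ r) * (1 / 4) ^ m ^ 2 =
            ((-1 : ℝ) ^ m * (-1) ^ r) * ((1 / 4) ^ r ^ 2 * (16 ^ m) ^ r * (1 / 4) ^ m ^ 2) by ring,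
            abs_mul, abs_mul, abs_pow, abs_pow, abs_neg, abs_one, one_pow, one_pow, one_mul, one_mul]
          exact abs_of_pos (by positivity)
      _ = ∑ r ∈ range m, (1 / 4 : ℝ) ^ (((r : ℤ) - m).natAbs ^ 2) +
          ∑ r ∈ Ico (m + 1) N, (1 / 4 : ℝ) ^ (((r : ℤ) - m).natAbs ^ 2) := by
          rw [← sum_union]
          · congr 1
            ext r
            simp only [mem_erase, mem_range, mem_union, mem_Ico]
            omega
          · rw [disjoint_left]
            intro r h1 h2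
            simp only [mem_range, mem_Ico] at h1 h2
            omega
      _ = ∑ d ∈ range m, (1 / 4 : ℝ) ^ ((d + 1) ^ 2) +
          ∑ d ∈ range (N - (m + 1)), (1 / 4 : ℝ) ^ ((d + 1) ^ 2) := by
          congr 1
          · rw [← sum_range_reflect]
            apply sum_congr rfl
            intro d hd
            rw [mem_range] at hd
            congr 2
            omega
          · rw [sum_Ico_eq_sum_range]
            apply sum_congr rfl
            intro d hd
            congr 2
            omega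
      _ < 1 := by
          have h1 := quarter_sum m
          have h2 := quarter_sum (N - (m + 1))
          linarith
  have := (abs_lt.1 hrest).1
  linarith

theorem theta_roots (N : ℕ) : N - 1 ≤ (theta N).roots.toFinset.card := by
  apply card_roots_of_alternating _ _ (fun m => (16 : ℝ) ^ m)
  · exact pow_right_strictMono₀ (by norm_num)
  · exact fun m hm => theta_sign N m hm

/-! ### sparse polynomials -/

theorem support_sum_monomial {X : Type*} (s : Finset X) (e : X → ℕ) (c : X → ℝ) :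
    (∑ x ∈ s, monomial (e x) (c x)).support.card ≤ s.card := by
  classical
  have : (∑ x ∈ s, monomial (e x) (c x)).support ⊆ s.image e := by
    intro n hn
    rw [mem_support_iff, finset_sum_coeff] at hn
    by_contra hcon
    apply hn
    apply sum_eq_zero
    intro x hx
    rw [coeff_monomial, if_neg]
    intro h
    exact hcon (mem_image.2 ⟨x, hx, h⟩)
  exact (card_le_card this).trans card_image_le

theorem chunk (τ : ℕ) : ∀ (q : ℕ) (p : ℝ[X]), p.support.card ≤ q * τ →
    ∃ P : Fin q → ℝ[X], p = ∑ c, P c ∧ ∀ c, (P c).support.card ≤ τ := by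
  classical
  intro q
  induction q with
  | zero =>
    intro p hp
    refine ⟨fun _ => 0, ?_, fun c => c.elim0⟩
    have : p = 0 := by
      rw [← support_eq_empty, ← card_eq_zero]
      omega
    simp [this]
  | succ q ih =>
    intro p hp
    obtain ⟨s, hs, hc⟩ := exists_subset_card_eq (s := p.support) (n := min τ p.support.card)
      (min_le_right _ _)
    have hsplit : p = (∑ i ∈ s, monomial i (p.coeff i)) +
        (∑ i ∈ p.support \ s, monomial i (p.coeff i)) := by
      rw [add_comm, sum_sdiff hs]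
      exact p.as_sum_support
    have hcard : (∑ i ∈ p.support \ s, monomial i (p.coeff i)).support.card ≤ q * τ := by
      refine (support_sum_monomial (p.support \ s) (fun i => i) (fun i => p.coeff i)).trans ?_
      rw [card_sdiff_of_subset hs, hc]
      rw [Nat.succ_mul] at hp
      omega
    obtain ⟨P, hP1, hP2⟩ := ih _ hcard
    refine ⟨Fin.cons (∑ i ∈ s, monomial i (p.coeff i)) P, ?_, ?_⟩
    · rw [Fin.sum_univ_succ, Fin.cons_zero]
      simp only [Fin.cons_succ]
      rw [← hP1]
      exact hsplit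
    · intro c
      refine Fin.cases ?_ (fun c => ?_) c
      · rw [Fin.cons_zero]
        refine (support_sum_monomial s (fun i => i) (fun i => p.coeff i)).trans ?_
        rw [hc]
        exact min_le_left _ _
      · rw [Fin.cons_succ]
        exact hP2 c

/-- `f` is a sum of `K` products of two polynomials with at most `τ` monomials each. -/
def Rep (f : ℝ[X]) (K τ : ℕ) : Prop :=
  ∃ F : Fin K → Fin 2 → ℝ[X], (∀ i j, (F i j).support.card ≤ τ) ∧ (∑ i, ∏ j, F i j) = f

theorem Rep.zero (K τ : ℕ) : Rep 0 K τ :=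
  ⟨fun _ _ => 0, fun _ _ => by simp, by simp⟩

theorem Rep.add {f g : ℝ[X]} {K L τ : ℕ} (hf : Rep f K τ) (hg : Rep g L τ) :
    Rep (f + g) (K + L) τ := by
  obtain ⟨F, hF1, hF2⟩ := hf
  obtain ⟨G, hG1, hG2⟩ := hg
  refine ⟨Fin.append F G, ?_, ?_⟩
  · intro i
    refine Fin.addCases (fun i => ?_) (fun i => ?_) i
    · rw [Fin.append_left]; exact hF1 i
    · rw [Fin.append_right]; exact hG1 i
  · rw [Fin.sum_univ_add]
    simp only [Fin.append_left, Fin.append_right]
    rw [hF2, hG2]

theorem Rep.mono {f : ℝ[X]} {K L τ : ℕ} (hf : Rep f K τ) (h : K ≤ L) : Rep f L τ := by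
  have := hf.add (Rep.zero (L - K) τ)
  rw [add_zero, Nat.add_sub_cancel' h] at this
  exact this

theorem Rep.sum {X : Type*} {τ : ℕ} (s : Finset X) (f : X → ℝ[X]) (K : X → ℕ)
    (h : ∀ x ∈ s, Rep (f x) (K x) τ) : Rep (∑ x ∈ s, f x) (∑ x ∈ s, K x) τ := by
  classical
  induction s using Finset.induction_on with
  | empty => simpa using Rep.zero 0 τ
  | insert a s ha ih =>
    rw [sum_insert ha, sum_insert ha]
    exact (h a (mem_insert_self _ _)).add (ih fun x hx => h x (mem_insert_of_mem hx))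

theorem Rep.mul {p r : ℝ[X]} {q q' τ : ℕ} (hp : p.support.card ≤ q * τ)
    (hr : r.support.card ≤ q' * τ) : Rep (p * r) (q * q') τ := by
  obtain ⟨P, hP1, hP2⟩ := chunk τ q p hp
  obtain ⟨R, hR1, hR2⟩ := chunk τ q' r hr
  have h1 : p * r = ∑ x : Fin q × Fin q', P x.1 * R x.2 := by
    rw [Fintype.sum_prod_type]
    conv_lhs => rw [hP1, hR1]
    rw [sum_mul_sum]
  have h2 := Rep.sum (τ := τ) (univ : Finset (Fin q × Fin q')) (fun x => P x.1 * R x.2)
    (fun _ => 1) (by
      intro x _
      refine ⟨fun _ => ![P x.1, R x.2], ?_, ?_⟩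
      · intro i j
        fin_cases j
        · exact hP2 _
        · exact hR2 _
      · simp)
  rw [h1]
  simpa using h2

end Pool.Agent.H525R3.Toep
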