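import Mathlib
import Pool.Agent.H525R3.Toep.Count

/-!
Toeplitz and Hankel matrices over an arbitrary field are the sum of a matrix of polynomially small
rank and a matrix with polynomially few nonzero entries.
-/

set_option autoImplicit false

open Finset

namespace Pool.Agent.H525R3.Toep

/-- the digit difference belonging to a state -/
def vl (s : Fin 3) : ℤ := if s = 0 then 0 else if s = 1 then 1 else -1

theorem vl_st (a b : Fin 2) : vl (st a b) = (a.val : ℤ) - (b.val : ℤ) := by
  revert a b; decide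

/-- the number with given binary digits -/
def num {n : ℕ} (x : Fin n → Fin 2) : ℕ := ∑ i, (x i).val * 2 ^ (i : ℕ)

theorem num_sub {n : ℕ} (x y : Fin n → Fin 2) :
    ∑ i : Fin n, vl (st (x i) (y i)) * 2 ^ (i : ℕ) = (num x : ℤ) - (num y : ℤ) := by
  unfold num
  push_cast
  rw [← sum_sub_distrib]
  apply sum_congr rfl
  intro i _
  rw [vl_st]
  ring

theorem num_eq {n : ℕ} (x : Fin n → Fin 2) : num x = (finFunctionFinEquiv x : ℕ) := by
  rw [finFunctionFinEquiv_apply]
  rfl

theorem num_lt {n : ℕ} (x : Fin n → Fin 2) : num x < 2 ^ n := by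
  rw [num_eq]; exact (finFunctionFinEquiv x).2

theorem exists_enc {N n : ℕ} (h : N ≤ 2 ^ n) :
    ∃ enc : Fin N → (Fin n → Fin 2), ∀ i, num (enc i) = i := by
  refine ⟨fun i => finFunctionFinEquiv.symm ⟨i, lt_of_lt_of_le i.2 h⟩, fun i => ?_⟩
  rw [num_eq, Equiv.apply_symm_apply]

theorem digit_decomp {F : Type*} [Field F] {ι κ : Type*} [Fintype ι] [Fintype κ]
    [DecidableEq κ] (k : ℕ) (G : (Fin (208 * k) → Fin 3) → F)
    (ex : ι → (Fin (208 * k) → Fin 2)) (ey : κ → (Fin (208 * k) → Fin 2))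
    (hx : Function.Injective ex) (hy : Function.Injective ey) :
    ∃ R S : Matrix ι κ F,
      (Matrix.of fun i j => G (fun l => st (ex i l) (ey j l))) = R + S ∧
      (R.rank : ℝ) * 5 ^ k ≤ 2 * 2 ^ (208 * k) ∧
      (Nat.card {p : ι × κ // S p.1 p.2 ≠ 0} : ℝ) * 5 ^ k ≤ 2 * 4 ^ (208 * k) := by
  classical
  obtain ⟨U, V, hUV⟩ := decomp (F := F) (117 * k) (65 * k) (91 * k) (by omega) G
  let R : Matrix ι κ F := Matrix.of fun i j =>
    ∑ S ∈ small (208 * k) (91 * k), mon S (ex i) * U S (ey j) +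
      ∑ T ∈ small (208 * k) (91 * k), V T (ex i) * mon T (ey j)
  refine ⟨R, (Matrix.of fun i j => G (fun l => st (ex i l) (ey j l))) - R, by simp, ?_, ?_⟩
  · -- rank
    let sm := small (208 * k) (91 * k)
    let P : Matrix ι (sm ⊕ sm) F := Matrix.of fun i t =>
      Sum.elim (fun S => mon S.1 (ex i)) (fun T => V T.1 (ex i)) t
    let Q : Matrix (sm ⊕ sm) κ F := Matrix.of fun t j =>
      Sum.elim (fun S => U S.1 (ey j)) (fun T => mon T.1 (ey j)) t
    have hR : R = P * Q := by
      ext i j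
      rw [Matrix.mul_apply, Fintype.sum_sum_type]
      simp only [P, Q, R, Matrix.of_apply, Sum.elim_inl, Sum.elim_inr]
      rw [← sum_coe_sort (small (208 * k) (91 * k)) (fun S => mon S (ex i) * U S (ey j)),
        ← sum_coe_sort (small (208 * k) (91 * k)) (fun T => V T (ex i) * mon T (ey j))]
    have h1 : R.rank ≤ 2 * sm.card := by
      rw [hR]
      refine (Matrix.rank_mul_le_left P Q).trans ((Matrix.rank_le_card_width P).trans ?_)
      rw [Fintype.card_sum, Fintype.card_coe]
      omega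
    have h2 : (R.rank : ℝ) ≤ 2 * (sm.card : ℝ) := by exact_mod_cast h1
    have h3 := small_card k
    have h5 : (0 : ℝ) ≤ 5 ^ k := by positivity
    calc (R.rank : ℝ) * 5 ^ k ≤ 2 * (sm.card : ℝ) * 5 ^ k := by gcongr
      _ = 2 * ((sm.card : ℝ) * 5 ^ k) := by ring
      _ ≤ 2 * 2 ^ (208 * k) := by
          apply mul_le_mul_of_nonneg_left h3 (by norm_num)
  · -- sparsity
    have h1 : Nat.card {p : ι × κ //
        ((Matrix.of fun i j => G (fun l => st (ex i l) (ey j l))) - R) p.1 p.2 ≠ 0} ≤
        (bad (208 * k) (117 * k) (65 * k)).card := by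
      rw [← Fintype.card_coe, ← Nat.card_eq_fintype_card]
      apply Nat.card_le_card_of_injective
        (fun p => (⟨(ex p.1.1, ey p.1.2), ?_⟩ : bad (208 * k) (117 * k) (65 * k)))
      · intro p q hpq
        have h := congrArg Subtype.val hpq
        simp only [Prod.mk.injEq] at h
        exact Subtype.ext (Prod.ext (hx h.1) (hy h.2))
      · refine mem_filter.2 ⟨mem_univ _, ?_⟩
        rintro ⟨h1, h2⟩
        apply p.2
        rw [Matrix.sub_apply]
        simp only [R, Matrix.of_apply]
        rw [hUV _ _ h1 h2, sub_self]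
    have h2 : (Nat.card {p : ι × κ //
        ((Matrix.of fun i j => G (fun l => st (ex i l) (ey j l))) - R) p.1 p.2 ≠ 0} : ℝ) ≤
        ((bad (208 * k) (117 * k) (65 * k)).card : ℝ) := by exact_mod_cast h1
    have h5 : (0 : ℝ) ≤ 5 ^ k := by positivity
    exact (mul_le_mul_of_nonneg_right h2 h5).trans (bad_card k)

end Pool.Agent.H525R3.Toep
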