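import Mathlib
import Pool.Agent.H525R3.Toep.Toeplitz
import Pool.Agent.H525R3.Toep.Roots

/-!
The truncated partial theta polynomial as a short sum of products of two sparse polynomials.
-/

set_option autoImplicit false

open Finset Polynomial

namespace Pool.Agent.H525R3.Toep

/-- row factor -/
noncomputable def fa (T j : ℕ) : ℝ := (-1) ^ j * (1 / 4) ^ ((1 + T) * j ^ 2)
/-- column factor -/
noncomputable def fb (T l : ℕ) : ℝ := ((-1) ^ T) ^ l * (1 / 4) ^ ((T ^ 2 + T) * l ^ 2)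

theorem key (T j l : ℕ) : (-1 : ℝ) ^ (j + T * l) * (1 / 4) ^ ((j + T * l) ^ 2) =
    fa T j * fb T l * 4 ^ (T * ((j : ℤ) - l).natAbs ^ 2) := by
  have h1 : (j + T * l) ^ 2 + T * ((j : ℤ) - l).natAbs ^ 2 =
      (1 + T) * j ^ 2 + (T ^ 2 + T) * l ^ 2 := by
    zify
    rw [sq_abs]
    ring
  have h2 : (1 / 4 : ℝ) ^ (T * ((j : ℤ) - l).natAbs ^ 2) * 4 ^ (T * ((j : ℤ) - l).natAbs ^ 2) = 1 := by
    rw [← mul_pow]; norm_num
  unfold fa fb
  calc (-1 : ℝ) ^ (j + T * l) * (1 / 4) ^ ((j + T * l) ^ 2)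
      = (-1 : ℝ) ^ (j + T * l) * (1 / 4) ^ ((j + T * l) ^ 2) *
        ((1 / 4 : ℝ) ^ (T * ((j : ℤ) - l).natAbs ^ 2) * 4 ^ (T * ((j : ℤ) - l).natAbs ^ 2)) := by
        rw [h2, mul_one]
    _ = (-1 : ℝ) ^ (j + T * l) * ((1 / 4) ^ ((j + T * l) ^ 2 + T * ((j : ℤ) - l).natAbs ^ 2)) *
        4 ^ (T * ((j : ℤ) - l).natAbs ^ 2) := by rw [pow_add]; ring
    _ = _ := by rw [h1, pow_add, pow_add, pow_mul]; ring

theorem theta_eq (n : ℕ) : theta (2 ^ n * 2 ^ n) =
    ∑ x : Fin n → Fin 2, ∑ y : Fin n → Fin 2, monomial (num x + 2 ^ n * num y)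
      ((-1 : ℝ) ^ (num x + 2 ^ n * num y) * (1 / 4) ^ ((num x + 2 ^ n * num y) ^ 2)) := by
  unfold theta
  rw [← Fin.sum_univ_eq_sum_range (fun r => monomial r ((-1 : ℝ) ^ r * (1 / 4) ^ (r ^ 2)))
    (2 ^ n * 2 ^ n), ← finProdFinEquiv.sum_comp, Fintype.sum_prod_type, sum_comm]
  rw [← (finFunctionFinEquiv : (Fin n → Fin 2) ≃ Fin (2 ^ n)).sum_comp]
  apply sum_congr rfl
  intro x _
  rw [← (finFunctionFinEquiv : (Fin n → Fin 2) ≃ Fin (2 ^ n)).sum_comp]
  apply sum_congr rfl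
  intro y _
  have : ((finProdFinEquiv (finFunctionFinEquiv y, finFunctionFinEquiv x) :
      Fin (2 ^ n * 2 ^ n)) : ℕ) = num x + 2 ^ n * num y := by
    rw [finProdFinEquiv_apply_val, num_eq, num_eq]
  rw [this]

theorem sum_sum_monomial {X : Type*} [Fintype X] (e e' : X → ℕ) (a b u v : X → ℝ) :
    ∑ x, ∑ y, monomial (e x + e' y) (a x * b y * (u x * v y)) =
      (∑ x, monomial (e x) (a x * u x)) * (∑ y, monomial (e' y) (b y * v y)) := by
  rw [sum_mul_sum]
  apply sum_congr rfl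
  intro x _
  apply sum_congr rfl
  intro y _
  rw [monomial_mul_monomial]
  congr 1
  ring

/-- the bad columns in a row -/
def bx {n : ℕ} (m0 r0 : ℕ) (x : Fin n → Fin 2) : Finset (Fin n → Fin 2) :=
  univ.filter (fun y => (x, y) ∈ bad n m0 r0)

theorem sum_bx (n m0 r0 : ℕ) : ∑ x : Fin n → Fin 2, (bx m0 r0 x).card = (bad n m0 r0).card := by
  have h : bad n m0 r0 = univ.filter (fun p => p ∈ bad n m0 r0) := by
    ext p; simp
  rw [h, card_filter, Fintype.sum_prod_type]
  apply sum_congr rfl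
  intro x _
  unfold bx
  rw [card_filter]

theorem theta_decomp (n m0 r0 s0 : ℕ) (hs : m0 + r0 ≤ 2 * s0 + 1) :
    ∃ (a b : (Fin n → Fin 2) → ℝ) (U V : Finset (Fin n) → (Fin n → Fin 2) → ℝ)
      (E : (Fin n → Fin 2) → (Fin n → Fin 2) → ℝ),
      theta (2 ^ n * 2 ^ n) =
        (∑ S ∈ small n s0, (∑ x, monomial (num x) (a x * mon S x)) *
          (∑ y, monomial (2 ^ n * num y) (b y * U S y))) +
        (∑ S ∈ small n s0, (∑ x, monomial (num x) (a x * V S x)) *
          (∑ y, monomial (2 ^ n * num y) (b y * mon S y))) +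
        ∑ x, monomial (num x) (a x) * (∑ y ∈ bx m0 r0 x, monomial (2 ^ n * num y) (b y * E x y)) := by
  classical
  let G : (Fin n → Fin 3) → ℝ := fun s =>
    4 ^ (2 ^ n * (∑ l : Fin n, vl (s l) * 2 ^ (l : ℕ)).natAbs ^ 2)
  obtain ⟨U, V, hUV⟩ := decomp (F := ℝ) m0 r0 s0 hs G
  let E : (Fin n → Fin 2) → (Fin n → Fin 2) → ℝ := fun x y =>
    G (fun l => st (x l) (y l)) - (∑ S ∈ small n s0, mon S x * U S y +
      ∑ T ∈ small n s0, V T x * mon T y)
  refine ⟨fun x => fa (2 ^ n) (num x), fun y => fb (2 ^ n) (num y), U, V, E, ?_⟩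
  have hE : ∀ x y, y ∉ bx m0 r0 x → E x y = 0 := by
    intro x y hy
    have : ¬ ¬ (df (fun i => st (x i) (y i)) ≤ m0 ∧ tw (fun i => st (x i) (y i)) ≤ r0) := by
      intro h
      exact hy (mem_filter.2 ⟨mem_univ _, mem_filter.2 ⟨mem_univ _, h⟩⟩)
    rw [not_not] at this
    simp only [E]
    rw [hUV x y this.1 this.2, sub_self]
  have hG : ∀ x y : Fin n → Fin 2, G (fun l => st (x l) (y l)) =
      4 ^ (2 ^ n * ((num x : ℤ) - (num y : ℤ)).natAbs ^ 2) := by
    intro x y
    simp only [G]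
    rw [num_sub]
  rw [theta_eq]
  simp_rw [key, ← hG]
  have hsplit : ∀ x y : Fin n → Fin 2, G (fun l => st (x l) (y l)) =
      (∑ S ∈ small n s0, mon S x * U S y) + (∑ T ∈ small n s0, V T x * mon T y) + E x y := by
    intro x y
    simp only [E]
    ring
  have h1 : ∀ x y : Fin n → Fin 2,
      (monomial (num x + 2 ^ n * num y)
        (fa (2 ^ n) (num x) * fb (2 ^ n) (num y) * G (fun l => st (x l) (y l))) : ℝ[X]) =
      (∑ S ∈ small n s0, monomial (num x + 2 ^ n * num y)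
        (fa (2 ^ n) (num x) * fb (2 ^ n) (num y) * (mon S x * U S y))) +
      (∑ S ∈ small n s0, monomial (num x + 2 ^ n * num y)
        (fa (2 ^ n) (num x) * fb (2 ^ n) (num y) * (V S x * mon S y))) +
      monomial (num x) (fa (2 ^ n) (num x)) *
        monomial (2 ^ n * num y) (fb (2 ^ n) (num y) * E x y) := by
    intro x y
    rw [hsplit, mul_add, mul_add, mul_sum, mul_sum, map_add, map_add, map_sum, map_sum,
      monomial_mul_monomial]
    congr 2
    ring
  simp_rw [h1, sum_add_distrib]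
  congr 1
  · congr 1
    · have h2 : ∀ x : Fin n → Fin 2, ∑ y : Fin n → Fin 2, ∑ S ∈ small n s0,
          (monomial (num x + 2 ^ n * num y)
            (fa (2 ^ n) (num x) * fb (2 ^ n) (num y) * (mon S x * U S y)) : ℝ[X]) =
          ∑ S ∈ small n s0, ∑ y : Fin n → Fin 2, (monomial (num x + 2 ^ n * num y)
            (fa (2 ^ n) (num x) * fb (2 ^ n) (num y) * (mon S x * U S y)) : ℝ[X]) :=
        fun x => sum_comm
      simp_rw [h2]
      rw [sum_comm]
      apply sum_congr rfl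
      intro S _
      exact sum_sum_monomial (fun x : Fin n → Fin 2 => num x) (fun y => 2 ^ n * num y)
        (fun x => fa (2 ^ n) (num x)) (fun y => fb (2 ^ n) (num y)) (fun x => mon S x) (U S)
    · have h2 : ∀ x : Fin n → Fin 2, ∑ y : Fin n → Fin 2, ∑ S ∈ small n s0,
          (monomial (num x + 2 ^ n * num y)
            (fa (2 ^ n) (num x) * fb (2 ^ n) (num y) * (V S x * mon S y)) : ℝ[X]) =
          ∑ S ∈ small n s0, ∑ y : Fin n → Fin 2, (monomial (num x + 2 ^ n * num y)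
            (fa (2 ^ n) (num x) * fb (2 ^ n) (num y) * (V S x * mon S y)) : ℝ[X]) :=
        fun x => sum_comm
      simp_rw [h2]
      rw [sum_comm]
      apply sum_congr rfl
      intro S _
      exact sum_sum_monomial (fun x : Fin n → Fin 2 => num x) (fun y => 2 ^ n * num y)
        (fun x => fa (2 ^ n) (num x)) (fun y => fb (2 ^ n) (num y)) (V S) (fun x => mon S x)
  · apply sum_congr rfl
    intro x _
    rw [mul_sum]
    symm
    apply sum_subset (subset_univ _)
    intro y _ hy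
    rw [hE x y hy, mul_zero, map_zero, mul_zero]

theorem card_supp_monomial_le (e : ℕ) (c : ℝ) : (monomial e c : ℝ[X]).support.card ≤ 1 :=
  (card_le_card (support_monomial_subset e c)).trans (by simp)

theorem card_cube (n : ℕ) : (univ : Finset (Fin n → Fin 2)).card = 2 ^ n := by
  rw [card_univ, Fintype.card_fun, Fintype.card_fin, Fintype.card_fin]

theorem theta_rep (k : ℕ) : ∃ K : ℕ, K * 2 * 2 ^ (207 * k) ≤ 10 * 2 ^ (415 * k) ∧
    Rep (theta (2 ^ (208 * k) * 2 ^ (208 * k))) K (2 ^ (207 * k)) := by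
  classical
  obtain ⟨a, b, U, V, E, hdec⟩ := theta_decomp (208 * k) (117 * k) (65 * k) (91 * k) (by omega)
  set τ := 2 ^ (207 * k) with hτ
  have hτ0 : 0 < τ := by positivity
  have hT : 2 ^ (208 * k) = 2 ^ k * τ := by
    rw [hτ, ← pow_add]; congr 1; ring
  have hfull : ∀ (e : (Fin (208 * k) → Fin 2) → ℕ) (c : (Fin (208 * k) → Fin 2) → ℝ),
      (∑ x, monomial (e x) (c x)).support.card ≤ 2 ^ k * τ := by
    intro e c
    rw [← hT]
    refine (support_sum_monomial univ e c).trans ?_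
    rw [card_cube]
  set sm := (small (208 * k) (91 * k)).card with hsm
  refine ⟨sm * (2 ^ k * 2 ^ k) + sm * (2 ^ k * 2 ^ k) +
    ∑ x : Fin (208 * k) → Fin 2, ((bx (117 * k) (65 * k) x).card / τ + 1), ?_, ?_⟩
  · -- the bound
    have h1 : (sm : ℝ) * 5 ^ k ≤ 2 ^ (208 * k) := small_card k
    have h2 : ((bad (208 * k) (117 * k) (65 * k)).card : ℝ) * 5 ^ k ≤ 2 * 4 ^ (208 * k) :=
      bad_card k
    have h3 : (∑ x : Fin (208 * k) → Fin 2, ((bx (117 * k) (65 * k) x).card / τ + 1)) * τ ≤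
        (bad (208 * k) (117 * k) (65 * k)).card + 2 ^ (208 * k) * τ := by
      rw [sum_mul, ← sum_bx, ← card_cube (208 * k), card_eq_sum_ones, sum_mul, ← sum_add_distrib]
      apply sum_le_sum
      intro x _
      rw [add_mul, one_mul]
      exact Nat.add_le_add_right (Nat.div_mul_le_self _ _) _
    have h4 : (sm : ℝ) * (2 ^ k * 2 ^ k) ≤ 2 ^ (208 * k) := by
      refine le_trans ?_ h1
      apply mul_le_mul_of_nonneg_left _ (Nat.cast_nonneg _)
      rw [← mul_pow]
      exact pow_le_pow_left₀ (by norm_num) (by norm_num) k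
    have h4' : sm * (2 ^ k * 2 ^ k) ≤ 2 ^ (208 * k) := by exact_mod_cast h4
    have h5 : ((bad (208 * k) (117 * k) (65 * k)).card : ℝ) ≤ 2 * 2 ^ (415 * k) := by
      have h6 : (2 : ℝ) ^ k ≤ 5 ^ k := pow_le_pow_left₀ (by norm_num) (by norm_num) k
      have h7 : ((bad (208 * k) (117 * k) (65 * k)).card : ℝ) * 2 ^ k ≤ 2 * 4 ^ (208 * k) :=
        (mul_le_mul_of_nonneg_left h6 (Nat.cast_nonneg _)).trans h2
      have h8 : (4 : ℝ) ^ (208 * k) = 2 ^ (415 * k) * 2 ^ k := by
        rw [show (4 : ℝ) = 2 ^ 2 by norm_num, ← pow_mul, ← pow_add]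
        congr 1; ring
      rw [h8, ← mul_assoc] at h7
      exact le_of_mul_le_mul_right h7 (by positivity)
    have h5' : (bad (208 * k) (117 * k) (65 * k)).card ≤ 2 * 2 ^ (415 * k) := by exact_mod_cast h5
    have h9 : 2 ^ (208 * k) * τ = 2 ^ (415 * k) := by
      rw [hτ, ← pow_add]; congr 1; ring
    calc (sm * (2 ^ k * 2 ^ k) + sm * (2 ^ k * 2 ^ k) +
          ∑ x : Fin (208 * k) → Fin 2, ((bx (117 * k) (65 * k) x).card / τ + 1)) * 2 * τ
        = 2 * (2 * (sm * (2 ^ k * 2 ^ k) * τ) +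
          (∑ x : Fin (208 * k) → Fin 2, ((bx (117 * k) (65 * k) x).card / τ + 1)) * τ) := by ring
      _ ≤ 2 * (2 * (2 ^ (208 * k) * τ) +
          ((bad (208 * k) (117 * k) (65 * k)).card + 2 ^ (208 * k) * τ)) := by
          gcongr
      _ ≤ 10 * 2 ^ (415 * k) := by
          rw [h9]
          omega
  · rw [hdec]
    have hsmall : sm * (2 ^ k * 2 ^ k) = ∑ _S ∈ small (208 * k) (91 * k), (2 ^ k * 2 ^ k) := by
      rw [sum_const, smul_eq_mul]
    rw [hsmall]
    refine Rep.add (Rep.add ?_ ?_) ?_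
    · apply Rep.sum
      intro S _
      exact Rep.mul (hfull _ _) (hfull _ _)
    · apply Rep.sum
      intro S _
      exact Rep.mul (hfull _ _) (hfull _ _)
    · apply Rep.sum
      intro x _
      rw [← one_mul ((bx (117 * k) (65 * k) x).card / τ + 1)]
      apply Rep.mul
      · rw [one_mul]
        refine (card_supp_monomial_le _ _).trans hτ0
      · refine (support_sum_monomial _ _ _).trans ?_
        rw [add_mul, one_mul]
        have := Nat.div_add_mod (bx (117 * k) (65 * k) x).card τ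
        have h2 := Nat.mod_lt (bx (117 * k) (65 * k) x).card hτ0
        rw [mul_comm] at this
        omega

/-- `f` is a sum of products of two polynomials with `S` monomials in total. -/
def Tot (f : ℝ[X]) (S : ℕ) : Prop :=
  ∃ (K : ℕ) (F : Fin K → Fin 2 → ℝ[X]), (∑ i, ∑ j, (F i j).support.card) ≤ S ∧
    (∑ i, ∏ j, F i j) = f

theorem Tot.add {f g : ℝ[X]} {S S' : ℕ} (hf : Tot f S) (hg : Tot g S') : Tot (f + g) (S + S') := by
  obtain ⟨K, F, hF1, hF2⟩ := hf
  obtain ⟨L, G, hG1, hG2⟩ := hg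
  refine ⟨K + L, Fin.append F G, ?_, ?_⟩
  · rw [Fin.sum_univ_add]
    simp only [Fin.append_left, Fin.append_right]
    exact add_le_add hF1 hG1
  · rw [Fin.sum_univ_add]
    simp only [Fin.append_left, Fin.append_right]
    rw [hF2, hG2]

theorem Tot.mul {p r : ℝ[X]} {S S' : ℕ} (hp : p.support.card ≤ S) (hr : r.support.card ≤ S') :
    Tot (p * r) (S + S') := by
  refine ⟨1, fun _ => ![p, r], ?_, ?_⟩
  · simp [Fin.sum_univ_two]
    omega
  · simp

theorem Tot.sum {X : Type*} (s : Finset X) (f : X → ℝ[X]) (K : X → ℕ)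
    (h : ∀ x ∈ s, Tot (f x) (K x)) : Tot (∑ x ∈ s, f x) (∑ x ∈ s, K x) := by
  classical
  induction s using Finset.induction_on with
  | empty => exact ⟨0, fun _ _ => 0, by simp, by simp⟩
  | insert a s ha ih =>
    rw [sum_insert ha, sum_insert ha]
    exact (h a (mem_insert_self _ _)).add (ih fun x hx => h x (mem_insert_of_mem hx))

theorem theta_tot (k : ℕ) : ∃ S : ℕ, (S : ℝ) * 5 ^ k ≤ 7 * 2 ^ (416 * k) ∧
    Tot (theta (2 ^ (208 * k) * 2 ^ (208 * k))) S := by
  classical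
  obtain ⟨a, b, U, V, E, hdec⟩ := theta_decomp (208 * k) (117 * k) (65 * k) (91 * k) (by omega)
  set T := 2 ^ (208 * k) with hT
  have hfull : ∀ (e : (Fin (208 * k) → Fin 2) → ℕ) (c : (Fin (208 * k) → Fin 2) → ℝ),
      (∑ x, monomial (e x) (c x)).support.card ≤ T := by
    intro e c
    refine (support_sum_monomial univ e c).trans ?_
    rw [card_cube]
  set sm := (small (208 * k) (91 * k)).card with hsm
  refine ⟨sm * (T + T) + sm * (T + T) +
    ∑ x : Fin (208 * k) → Fin 2, (1 + (bx (117 * k) (65 * k) x).card), ?_, ?_⟩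
  · have h1 : (sm : ℝ) * 5 ^ k ≤ 2 ^ (208 * k) := small_card k
    have h2 : ((bad (208 * k) (117 * k) (65 * k)).card : ℝ) * 5 ^ k ≤ 2 * 4 ^ (208 * k) :=
      bad_card k
    have h3 : ∑ x : Fin (208 * k) → Fin 2, (1 + (bx (117 * k) (65 * k) x).card) =
        T + (bad (208 * k) (117 * k) (65 * k)).card := by
      rw [sum_add_distrib, sum_bx, ← card_eq_sum_ones, card_cube]
    rw [h3]
    have hTr : (T : ℝ) = 2 ^ (208 * k) := by rw [hT]; push_cast; rfl
    have h4 : (4 : ℝ) ^ (208 * k) = (T : ℝ) * T := by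
      rw [hTr, ← mul_pow]; norm_num
    have h5 : (2 : ℝ) ^ (416 * k) = (T : ℝ) * T := by
      rw [hTr, ← pow_add]; congr 1; ring
    have h6 : (5 : ℝ) ^ k ≤ T := by
      rw [hTr, pow_mul]
      exact pow_le_pow_left₀ (by norm_num) (by norm_num) k
    rw [← hTr] at h1
    rw [h4] at h2
    rw [h5]
    have hT0 : (0 : ℝ) ≤ T := Nat.cast_nonneg _
    push_cast
    have h7 := mul_le_mul_of_nonneg_left h1 hT0
    have h8 := mul_le_mul_of_nonneg_left h6 hT0
    nlinarith
  · rw [hdec]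
    have hsmall : sm * (T + T) = ∑ _S ∈ small (208 * k) (91 * k), (T + T) := by
      rw [sum_const, smul_eq_mul]
    rw [hsmall]
    refine Tot.add (Tot.add ?_ ?_) ?_
    · apply Tot.sum
      intro S _
      exact Tot.mul (hfull _ _) (hfull _ _)
    · apply Tot.sum
      intro S _
      exact Tot.mul (hfull _ _) (hfull _ _)
    · apply Tot.sum
      intro x _
      exact Tot.mul (card_supp_monomial_le _ _) (support_sum_monomial _ _ _)

end Pool.Agent.H525R3.Toep
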